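import Pool.Agent.P8H83.ZE.Stm

/-!
# Functions on a finite set are free over the shifted operator
-/

set_option autoImplicit false

namespace Pool.Agent.P8H60.ZE

open Module Pool.Agent.P8H83.ZL Pool.Agent.P8H83.ZE

/-- sums of commuting elements in characteristic `p` -/
theorem sum_pow_of_commute {R : Type} [Ring R] {p : ℕ} (hp : p.Prime) [CharP R p] {ι : Type}
    (s : Finset ι) (f : ι → R) (hc : ∀ i j, Commute (f i) (f j)) :
    (∑ i ∈ s, f i) ^ p = ∑ i ∈ s, f i ^ p := by
  classical
  have : Fact p.Prime := ⟨hp⟩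
  induction s using Finset.induction_on with
  | empty => simp [hp.ne_zero]
  | insert a s ha ih =>
    rw [Finset.sum_insert ha, Finset.sum_insert ha,
      add_pow_char_of_commute _ (Commute.sum_right _ _ _ fun i _ => hc a i), ih]

/-- the Weyl algebra trick -/
theorem weyl {K V : Type} [Field K] {p : ℕ} (hp : p.Prime) [CharP K p] [AddCommGroup V] [Module K V]
    (u F : Module.End K V) (h : u * F = F * u + 1) :
    (∀ f, u f = 0 → ∃ k, (u ^ (p - 1)) k = f) ∧ (∀ f, (u ^ (p - 1)) f = 0 → ∃ k, u k = f) := by
  have h1 : ∀ k : ℕ, u * F ^ (k + 1) = F ^ (k + 1) * u + ((k + 1 : ℕ) : K) • F ^ k := by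
    intro k
    induction k with
    | zero => simpa using h
    | succ k ih =>
      rw [pow_succ F (k + 1), ← mul_assoc, ih, add_mul, mul_assoc, h, mul_add, mul_one,
        smul_mul_assoc, ← pow_succ, ← mul_assoc, add_assoc]
      congr 1
      push_cast
      rw [add_smul ((k : K) + 1) 1, one_smul, add_comm]
  have h2 : ∀ (f : V), u f = 0 → ∀ k : ℕ, (u ^ k) ((F ^ k) f) = ((Nat.factorial k : ℕ) : K) • f := by
    intro f hf k
    induction k with
    | zero => simp
    | succ k ih =>
      have h3 := LinearMap.congr_fun (h1 k) f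
      rw [Module.End.mul_apply, LinearMap.add_apply, Module.End.mul_apply, hf, map_zero, zero_add,
        LinearMap.smul_apply] at h3
      rw [pow_succ u k, Module.End.mul_apply, h3, map_smul, ih, smul_smul, Nat.factorial_succ]
      push_cast
      ring_nf
  have h4 : ((Nat.factorial (p - 1) : ℕ) : K) ≠ 0 := by
    intro h5
    rw [CharP.cast_eq_zero_iff K p, hp.dvd_factorial] at h5
    have := hp.pos
    omega
  have h6 : ∀ f, u f = 0 → ∃ k, (u ^ (p - 1)) k = f := by
    intro f hf
    refine ⟨((Nat.factorial (p - 1) : ℕ) : K)⁻¹ • (F ^ (p - 1)) f, ?_⟩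
    rw [map_smul, h2 f hf, smul_smul, inv_mul_cancel₀ h4, one_smul]
  refine ⟨h6, ?_⟩
  have h7 : ∀ j : ℕ, j ≤ p - 1 → ∀ f, (u ^ j) f = 0 → ∃ k, u k = f := by
    intro j
    induction j with
    | zero =>
      intro _ f hf
      refine ⟨0, ?_⟩
      rw [map_zero]
      exact hf.symm
    | succ j ih =>
      intro hj f hf
      rw [pow_succ', Module.End.mul_apply] at hf
      obtain ⟨k, hk⟩ := h6 _ hf
      have e : p - 1 = j + ((p - 1 - j - 1) + 1) := by omega
      rw [e, pow_add, Module.End.mul_apply] at hk
      obtain ⟨k', hk'⟩ := ih (by omega) (f - (u ^ ((p - 1 - j - 1) + 1)) k) (by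
        rw [map_sub, hk, sub_self])
      refine ⟨k' + (u ^ (p - 1 - j - 1)) k, ?_⟩
      rw [map_add, hk', pow_succ', Module.End.mul_apply, sub_add_cancel]
  exact h7 (p - 1) le_rfl

/-- multiplication by a function -/
noncomputable def mu {K X : Type} [Field K] (f : X → K) : Module.End K (X → K) where
  toFun h := fun x => f x * h x
  map_add' h k := by funext x; simp [mul_add]
  map_smul' c h := by funext x; simp; ring

theorem mu_apply {K X : Type} [Field K] (f h : X → K) (x : X) : mu f h x = f x * h x := rfl

theorem mu_mul {K X : Type} [Field K] (f g : X → K) : mu f * mu g = mu (f * g) := by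
  apply LinearMap.ext
  intro h
  funext x
  show f x * (g x * h x) = f x * g x * h x
  ring

theorem mu_one {K X : Type} [Field K] : mu (1 : X → K) = 1 := by
  apply LinearMap.ext
  intro h
  funext x
  show 1 * h x = h x
  ring

theorem mu_pow {K X : Type} [Field K] (f : X → K) (n : ℕ) : mu f ^ n = mu (f ^ n) := by
  induction n with
  | zero => rw [pow_zero, pow_zero, mu_one]
  | succ n ih => rw [pow_succ, pow_succ, ih, mu_mul]

theorem mu_comm {K X : Type} [Field K] (f g : X → K) : Commute (mu f) (mu g) := by
  show mu f * mu g = mu g * mu f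
  rw [mu_mul, mu_mul, mul_comm]

theorem mu_sum {K X ι : Type} [Field K] (s : Finset ι) (f : ι → X → K) :
    ∑ i ∈ s, mu (f i) = mu (∑ i ∈ s, f i) := by
  apply LinearMap.ext
  intro h
  funext x
  rw [LinearMap.sum_apply, Finset.sum_apply, mu_apply, Finset.sum_apply, Finset.sum_mul]
  rfl

section

variable {K G X : Type} [Field K] [Group G] (φ : G →* Equiv.Perm X)

/-- an invariant function commutes with the group -/
theorem mu_comm_perm (c : X → K) (hc : ∀ g x, c (φ g x) = c x) (g : G) :
    Commute (mu c) (permR K φ g) := by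
  show mu c * permR K φ g = permR K φ g * mu c
  apply LinearMap.ext
  intro h
  funext x
  rw [Module.End.mul_apply, Module.End.mul_apply, mu_apply, permR_apply, permR_apply, mu_apply]
  congr 1
  rw [← map_inv, hc]

theorem perm_comm (hG : ∀ x y : G, x * y = y * x) (g h : G) :
    Commute (permR K φ g) (permR K φ h) := by
  show permR K φ g * permR K φ h = permR K φ h * permR K φ g
  have := congrArg (permR K φ) (hG g h)
  rwa [map_mul, map_mul] at this

end

/-- the orbit data: a locally defined function and its translation characters -/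
theorem orbit_data {p : ℕ} {K : Type} [Field K] [CharP K p] {G X : Type} [Group G]
    (φ : G →* Equiv.Perm X) {ι : Type} [Fintype ι] (g : ι → G) (a : ι → K)
    (hG : ∀ x y : G, x * y = y * x)
    (hx : ∀ x : X, ∃ χ : G →* Multiplicative (ZMod p), (∀ h, φ h x = x → χ h = 1) ∧
      ∑ i, a i * ZMod.castHom (dvd_refl p) K (Multiplicative.toAdd (χ (g i))) ≠ 0) :
    ∃ (f : X → K) (c : ι → X → K), (∀ i x, f (φ (g i) x) = f x + c i x) ∧
      (∀ i h x, c i (φ h x) = c i x) ∧ ∀ x, ∑ i, a i * c i x ≠ 0 := by
  classical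
  let r : Setoid X :=
    { r := fun x y => ∃ h : G, φ h x = y
      iseqv :=
        { refl := fun x => ⟨1, by rw [map_one]; rfl⟩
          symm := by
            rintro x y ⟨h, rfl⟩
            refine ⟨h⁻¹, ?_⟩
            rw [map_inv]
            exact (φ h).symm_apply_apply x
          trans := by
            rintro x y z ⟨h, rfl⟩ ⟨k, rfl⟩
            refine ⟨k * h, ?_⟩
            rw [map_mul]
            rfl } }
  let b : X → X := fun x => (Quotient.mk r x).out
  have hb : ∀ x, ∃ h : G, φ h (b x) = x := fun x => Quotient.exact (Quotient.out_eq (Quotient.mk r x))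
  have hbi : ∀ h x, b (φ h x) = b x := by
    intro h x
    have : Quotient.mk r (φ h x) = Quotient.mk r x := (Quotient.sound ⟨h, rfl⟩ : Quotient.mk r x = _).symm
    show (Quotient.mk r (φ h x)).out = (Quotient.mk r x).out
    rw [this]
  choose χ h1 h2 using hx
  choose t ht using hb
  have key : ∀ x h, φ h (b x) = x → χ (b x) h = χ (b x) (t x) := by
    intro x h hh
    have h3 : φ ((t x)⁻¹ * h) (b x) = b x := by
      rw [map_mul, map_inv, Equiv.Perm.mul_apply, hh, Equiv.Perm.inv_eq_iff_eq]
      exact (ht x).symm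
    have h4 := h1 (b x) _ h3
    rw [map_mul, map_inv, inv_mul_eq_one] at h4
    exact h4.symm
  refine ⟨fun x => ZMod.castHom (dvd_refl p) K (Multiplicative.toAdd (χ (b x) (t x))),
    fun i x => ZMod.castHom (dvd_refl p) K (Multiplicative.toAdd (χ (b x) (g i))), ?_, ?_, ?_⟩
  · intro i x
    show ZMod.castHom (dvd_refl p) K (Multiplicative.toAdd (χ (b (φ (g i) x)) (t (φ (g i) x)))) =
      ZMod.castHom (dvd_refl p) K (Multiplicative.toAdd (χ (b x) (t x))) +
      ZMod.castHom (dvd_refl p) K (Multiplicative.toAdd (χ (b x) (g i)))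
    have h5 : χ (b x) (g i * t x) = χ (b (φ (g i) x)) (t (φ (g i) x)) := by
      have h6 := key (φ (g i) x) (g i * t x) (by
        rw [hbi, map_mul, Equiv.Perm.mul_apply, ht])
      rw [hbi] at h6 ⊢
      exact h6
    rw [← h5, ← map_add, map_mul, toAdd_mul, add_comm]
  · intro i h x
    show ZMod.castHom (dvd_refl p) K (Multiplicative.toAdd (χ (b (φ h x)) (g i))) = _
    rw [hbi]
  · intro x
    exact h2 (b x)

theorem fre_proof : S_FRE := by
  intro p hp K _ _ G _ X _ φ ι _ g a hG hg hx
  classical
  rcases isEmpty_or_nonempty X with hX | hX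
  · refine ⟨fun f => ?_, fun f _ => ⟨0, ?_⟩, fun f _ => ⟨0, ?_⟩⟩
    · exact Subsingleton.elim _ _
    · exact Subsingleton.elim _ _
    · exact Subsingleton.elim _ _
  have hch : CharP (Module.End K (X → K)) p :=
    charP_of_injective_algebraMap (algebraMap K (Module.End K (X → K))).injective p
  have : Fact p.Prime := ⟨hp⟩
  obtain ⟨f, c, hf, hc, hs⟩ := orbit_data φ g a hG hx
  set u : Module.End K (X → K) := sop φ g a with hu
  have hgp : ∀ i, permR K φ (g i) ^ p = 1 := by
    intro i
    rw [← map_pow, hg, map_one]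
  have hup : u ^ p = 0 := by
    have h1 : u = ∑ i, a i • (permR K φ (g i) - 1 : Module.End K (X → K)) := rfl
    rw [h1, sum_pow_of_commute hp]
    · apply Finset.sum_eq_zero
      intro i _
      rw [smul_pow, sub_pow_char_of_commute _ (Commute.one_right _), hgp, one_pow, sub_self,
        smul_zero]
    · intro i j
      refine Commute.smul_left (Commute.smul_right ?_ _) _
      exact ((perm_comm φ hG (g i) (g j)).sub_left (Commute.one_left _)).sub_right (Commute.one_right _)
  -- the operator `w`
  set w : Module.End K (X → K) := ∑ i, a i • (mu (c i) * permR K φ (g i)) with hw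
  have huf : u * mu f = mu f * u - w := by
    apply LinearMap.ext
    intro h
    funext x
    have e1 : (u * mu f) h x = ∑ i, a i * ((f x - c i x) * h ((φ (g i))⁻¹ x) - f x * h x) := by
      show (sop φ g a (mu f h)) x = _
      unfold sop
      rw [LinearMap.sum_apply, Finset.sum_apply]
      refine Finset.sum_congr rfl fun i _ => ?_
      show a i * (mu f h ((φ (g i))⁻¹ x) - mu f h x) = _
      rw [mu_apply, mu_apply]
      have h3 := hf i ((φ (g i))⁻¹ x)
      have h4 : φ (g i) ((φ (g i))⁻¹ x) = x := (φ (g i)).apply_symm_apply x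
      have h5 : c i ((φ (g i))⁻¹ x) = c i x := by
        rw [← map_inv, hc]
      rw [h4, h5] at h3
      rw [h3]
      ring
    have e2 : (mu f * u - w) h x = f x * (∑ i, a i * (h ((φ (g i))⁻¹ x) - h x)) -
        ∑ i, a i * (c i x * h ((φ (g i))⁻¹ x)) := by
      show f x * (sop φ g a h x) - w h x = _
      congr 1
      · congr 1
        unfold sop
        rw [LinearMap.sum_apply, Finset.sum_apply]
        rfl
      · rw [hw, LinearMap.sum_apply, Finset.sum_apply]
        rfl
    rw [e1, e2, Finset.mul_sum, ← Finset.sum_sub_distrib]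
    refine Finset.sum_congr rfl fun i _ => ?_
    ring
  have hcg : ∀ i h, Commute (mu (c i)) (permR K φ h) := fun i h => mu_comm_perm φ (c i) (hc i) h
  have hwh : ∀ h, Commute w (permR K φ h) := by
    intro h
    rw [hw]
    refine Commute.sum_left _ _ _ fun i _ => Commute.smul_left ?_ _
    exact (hcg i h).mul_left (perm_comm φ hG (g i) h)
  have hwu : Commute w u := by
    have h1 : u = ∑ i, a i • (permR K φ (g i) - 1 : Module.End K (X → K)) := rfl
    rw [h1]
    refine Commute.sum_right _ _ _ fun i _ => Commute.smul_right ?_ _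
    exact (hwh (g i)).sub_right (Commute.one_right _)
  set s : X → K := fun x => (∑ i, a i * c i x) ^ p with hsd
  have hwp : w ^ p = mu s := by
    rw [hw, sum_pow_of_commute hp]
    · have e : ∀ i, (a i • (mu (c i) * permR K φ (g i))) ^ p = mu (fun x => (a i * c i x) ^ p) := by
        intro i
        rw [smul_pow, (hcg i (g i)).mul_pow, hgp, mul_one, mu_pow]
        apply LinearMap.ext
        intro h
        funext x
        show a i ^ p * ((c i x) ^ p * h x) = (a i * c i x) ^ p * h x
        ring
      rw [Finset.sum_congr rfl fun i _ => e i, mu_sum]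
      congr 1
      funext x
      rw [Finset.sum_apply, hsd]
      exact (sum_pow_char p _ _).symm
    · intro i j
      refine Commute.smul_left (Commute.smul_right ?_ _) _
      refine ((mu_comm _ _).mul_right (hcg i _)).mul_left ?_
      exact ((hcg j _).symm).mul_right (perm_comm φ hG _ _)
  have hs0 : ∀ x, s x ≠ 0 := fun x => pow_ne_zero _ (hs x)
  have hsi : ∀ h x, s (φ h x) = s x := by
    intro h x
    simp only [hsd, hc]
  set v : Module.End K (X → K) := mu (fun x => (s x)⁻¹) with hv
  have hvh : ∀ h, Commute v (permR K φ h) := fun h => mu_comm_perm φ _ (fun g x => by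
    show (s (φ g x))⁻¹ = (s x)⁻¹
    rw [hsi]) h
  have hvu : Commute v u := by
    have h1 : u = ∑ i, a i • (permR K φ (g i) - 1 : Module.End K (X → K)) := rfl
    rw [h1]
    refine Commute.sum_right _ _ _ fun i _ => Commute.smul_right ?_ _
    exact (hvh (g i)).sub_right (Commute.one_right _)
  have hwv : w * (w ^ (p - 1) * v) = 1 := by
    rw [← mul_assoc, ← pow_succ', Nat.sub_add_cancel hp.one_le, hwp, hv, mu_mul, ← mu_one]
    congr 1
    funext x
    exact mul_inv_cancel₀ (hs0 x)
  have hz : Commute (w ^ (p - 1) * v) u := (hwu.pow_left _).mul_left hvu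
  have hA : u * (mu f * (w ^ (p - 1) * v)) = (mu f * (w ^ (p - 1) * v)) * u - 1 := by
    rw [← mul_assoc, huf, sub_mul, hwv, mul_assoc, mul_assoc (mu f), hz.eq]
  have hF : u * (-(mu f * (w ^ (p - 1) * v)) : Module.End K (X → K)) =
      (-(mu f * (w ^ (p - 1) * v)) : Module.End K (X → K)) * u + 1 := by
    apply LinearMap.ext
    intro h
    have h1 := LinearMap.congr_fun hA h
    show u (-((mu f * (w ^ (p - 1) * v)) h)) = -((mu f * (w ^ (p - 1) * v)) (u h)) + h
    have h2 : u ((mu f * (w ^ (p - 1) * v)) h) = (mu f * (w ^ (p - 1) * v)) (u h) - h := h1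
    rw [map_neg, h2]
    abel
  obtain ⟨h6, h7⟩ := weyl hp u _ hF
  refine ⟨fun f => ?_, h6, h7⟩
  rw [hup]
  rfl

end Pool.Agent.P8H60.ZE
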